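import Pool.Agent.MWGN.StmtsA

/-!
# MWGN, row VCL: `β` keeps `Kb` and `Kc`
-/

namespace Pool.Agent.MWGN.H43

open Pool.Agent.Helper14_MV Pool.Agent.Helper2_MV
open Pool.Agent.MWK (pre Gw)
open Pool.Agent.MWGN

theorem ns_of {a b m : ℕ} {S : ℕ → ℕ} (hab : a ≠ b) (ha : ∀ i, S i ≠ a) (hb : ∀ i, S i ≠ b)
    (hS : ∀ i j, S i = S j → i = j) : (a :: b :: (List.range (m + 1)).map S).Nodup := by
  rw [List.nodup_cons, List.nodup_cons]
  refine ⟨?_, ?_, ?_⟩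
  · intro h
    rcases List.mem_cons.1 h with h | h
    · exact hab h
    · obtain ⟨i, _, hi⟩ := List.mem_map.1 h
      exact ha i hi
  · intro h
    obtain ⟨i, _, hi⟩ := List.mem_map.1 h
    exact hb i hi
  · exact List.Nodup.map (fun i j h => hS i j h) List.nodup_range

theorem ns1 (m : ℕ) : Ns N1 m := by
  refine ns_of (a := 2) (b := 3) (S := fun i => 5 + 6 * i) (by omega) ?_ ?_ ?_
  · intro i h
    have h' : 5 + 6 * i = 2 := h
    omega
  · intro i h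
    have h' : 5 + 6 * i = 3 := h
    omega
  · intro i j h
    have h' : 5 + 6 * i = 5 + 6 * j := h
    omega

theorem ns2 (m : ℕ) : Ns (N2 m) m := by
  refine ns_of (a := 5 + 6 * m) (b := 4) (S := fun i => 8 + 6 * i) (by omega) ?_ ?_ ?_
  · intro i h
    have h' : 8 + 6 * i = 5 + 6 * m := h
    omega
  · intro i h
    have h' : 8 + 6 * i = 4 := h
    omega
  · intro i j h
    have h' : 8 + 6 * i = 8 + 6 * j := h
    omega

/-- **VCL** -/
theorem vcl (hSpv : SpvStmt) (hWcv : WcvStmt) (hKar : KarStmt) (hKpr : KprStmt) : VclStmt := by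
  intro β hG τ m hτ hK w w' hr
  have hA : ¬ A0 β := fun h => hK (hKar β hG h m τ hτ)
  have hP : ¬ P0 β := fun h => hK (hKpr β hG h m τ hτ)
  have hE : ¬ E0 β := fun h => hA (RR.append h (RR.refl (β := β) [2, 1]))
  have w1 := hWcv β hG.gw hE hP hA N1 τ m m (ns1 m) (by omega) w w' hr
  have w2 := hWcv β hG.gw hE hP hA (N2 m) τ m (m + 1) (ns2 m) le_rfl w w' hr
  have k0 : K0 τ m w → K0 τ m w' := fun h => ⟨w1.1 h.c1, w1.2 h.t1, w2.1 h.c2, w2.2 h.t2⟩
  exact ⟨fun h => ⟨k0 h.1, hSpv β hG N1 τ m m (ns1 m) hτ le_rfl (by omega) hK w w' hr h.1.c1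
      h.1.t1 h.2⟩,
    fun h => ⟨k0 h.1, hSpv β hG (N2 m) τ m (m + 1) (ns2 m) hτ (by omega) le_rfl hK w w' hr h.1.c2
      h.1.t2 h.2⟩⟩

end Pool.Agent.MWGN.H43
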