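import Pool.Agent.MWGN.StmtsC

/-!
# MWGN, row FOF: form of the instances (hull pentagon)
-/

namespace Pool.Agent.MWGN.H43

open Pool.Agent.Helper14_MV Pool.Agent.Helper2_MV
open Pool.Agent.MWK (pre Gw)
open Pool.Agent.MWGN

/-! ### insertion -/

theorem ins_refl (E M : List ℕ) : Ins E M M 0 := by
  induction M with
  | nil => exact Ins.nil
  | cons c M ih => exact Ins.cons c ih

theorem ins_append {E M N M' N' : List ℕ} {k k' : ℕ} (h : Ins E M N k) (h' : Ins E M' N' k') :
    Ins E (M ++ M') (N ++ N') (k + k') := by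
  induction h with
  | nil => simpa using h'
  | cons c _ ih => exact Ins.cons c ih
  | @ins M N k _ ih =>
    have e : k + 1 + k' = k + k' + 1 := by ring
    rw [e, List.append_assoc]
    exact Ins.ins ih

theorem ins_left {E M N : List ℕ} {k : ℕ} (A : List ℕ) (h : Ins E M N k) :
    Ins E (A ++ M) (A ++ N) k := by
  have h1 := ins_append (ins_refl E A) h
  rwa [Nat.zero_add] at h1

theorem ins_one (E M : List ℕ) : Ins E M (E ++ M) 1 := Ins.ins (ins_refl E M)

theorem ins_nil (E : List ℕ) : Ins E [] E 1 := by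
  have h := ins_one E []
  rwa [List.append_nil] at h

theorem ins_gh {E : List ℕ} (g h h' : ℕ → List ℕ) (k : ℕ → ℕ) (N : ℕ)
    (H : ∀ i < N, Ins E (h i) (h' i) (k i)) :
    Ins E (gh g h N) (gh g h' N) (∑ i ∈ Finset.range N, k i) := by
  induction N with
  | zero => exact Ins.nil
  | succ N ih =>
    rw [gh_succ, gh_succ, Finset.sum_range_succ]
    exact ins_append (ih fun i hi => H i (by omega)) (ins_left _ (H N (by omega)))

/-! ### `gh` -/

theorem gh_zero (g h : ℕ → List ℕ) : gh g h 0 = [] := rfl

theorem gh_first (g h : ℕ → List ℕ) (N : ℕ) :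
    gh g h (N + 1) = (g 0 ++ h 0) ++ gh (fun i => g (i + 1)) (fun i => h (i + 1)) N := by
  unfold gh
  rw [List.range_succ_eq_map, List.flatMap_cons, List.flatMap_map]

theorem gh_congr {g g' h h' : ℕ → List ℕ} {N : ℕ} (hg : ∀ i < N, g i = g' i)
    (hh : ∀ i < N, h i = h' i) : gh g h N = gh g' h' N := by
  induction N with
  | zero => rfl
  | succ N ih =>
    rw [gh_succ, gh_succ, ih (fun i hi => hg i (by omega)) (fun i hi => hh i (by omega)),
      hg N (by omega), hh N (by omega)]

/-! ### the words -/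

theorem gp_map (f : ℕ → List ℕ) (u v : Bool) (i : ℕ) : (gp u v i).flatMap f = dp f u v i := by
  unfold gp dp
  cases u <;> cases v <;> simp

theorem mid_map (f : ℕ → List ℕ) (u v : Bool) (r : ℕ) :
    ((List.range r).flatMap (fun i => NF.L (i + 1) :: gp u v i)).flatMap f =
      gh (fun i => f (NF.L (i + 1))) (fun i => dp f u v i) r := by
  induction r with
  | zero => rfl
  | succ r ih =>
    rw [gh_succ, ← ih, List.range_succ, List.flatMap_append, List.flatMap_append,
      List.flatMap_singleton, List.flatMap_cons, gp_map]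

/-- the rest -/
def RR0 (f : ℕ → List ℕ) (τ : List ℕ) (r : ℕ) : List ℕ :=
  f 2 ++ ((tw τ r).flatMap (fun i => [NF.S i, NF.L i])).flatMap f

theorem wf_map (f : ℕ → List ℕ) (τ : List ℕ) (r : ℕ) (u v : Bool) : (wf τ r u v).flatMap f =
    f 0 ++ (f 0 ++ (f (NF.L 0) ++ (f 1 ++ (f 1 ++
      (gh (fun i => f (NF.L (i + 1))) (fun i => dp f u v i) r ++ (f (NF.L (r + 1)) ++
        (f 0 ++ (f 0 ++ (f (NF.L (r + 2)) ++ (f 1 ++ (f 1 ++ RR0 f τ r))))))))))) := by
  unfold wf RR0
  rw [← mid_map]
  simp only [List.flatMap_cons, List.flatMap_append]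

theorem mem_tw {τ : List ℕ} {r : ℕ} (hr : 1 ≤ r) (hτ : Tau τ r) {i : ℕ} (hi : i ≤ r + 2) :
    i ∈ tw τ r := by
  unfold tw
  rw [List.mem_flatMap]
  by_cases h0 : i = 0
  · exact ⟨0, (hτ.2 0).2 (by omega), by simp [h0]⟩
  by_cases h1 : i = 1
  · exact ⟨0, (hτ.2 0).2 (by omega), by simp [h1]⟩
  have hr0 : ¬ r = 0 := by omega
  by_cases h2 : i = r + 1
  · exact ⟨r, (hτ.2 r).2 le_rfl, by simp [h2, hr0]⟩
  by_cases h3 : i = r + 2
  · exact ⟨r, (hτ.2 r).2 le_rfl, by simp [h3, hr0]⟩
  · refine ⟨i - 1, (hτ.2 (i - 1)).2 (by omega), ?_⟩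
    rw [if_neg (by omega), if_neg (by omega), List.mem_singleton]
    omega

theorem tail_fac {f : ℕ → List ℕ} {τ : List ℕ} {r i : ℕ} (h : i ∈ tw τ r) :
    ∃ R1 R2, RR0 f τ r = R1 ++ (f (NF.L i) ++ R2) := by
  obtain ⟨A, B, hAB⟩ := List.append_of_mem h
  unfold RR0
  rw [hAB]
  refine ⟨f 2 ++ ((A.flatMap (fun i => [NF.S i, NF.L i])).flatMap f ++ f (NF.S i)),
    (B.flatMap (fun i => [NF.S i, NF.L i])).flatMap f, ?_⟩
  simp only [List.flatMap_append, List.flatMap_cons, List.append_assoc, List.flatMap_nil,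
    List.nil_append]

theorem sum1 (r : ℕ) : ∑ i ∈ Finset.range (r + 2), (if i < r then 1 else 0) = r := by
  rw [Finset.sum_range_succ, Finset.sum_range_succ, if_neg (by omega), if_neg (by omega),
    Finset.sum_congr rfl (g := fun _ => 1) (fun i hi => if_pos (Finset.mem_range.1 hi))]
  simp

theorem sum2 (r : ℕ) : ∑ i ∈ Finset.range (r + 2),
    (if i = 0 then 0 else if i ≤ r then 1 else 0) = r := by
  rw [Finset.sum_range_succ, Finset.sum_range_succ', if_pos rfl, if_neg (by omega),
    if_neg (by omega), Finset.sum_congr rfl (g := fun _ => 1)]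
  · simp
  · intro i hi
    have := Finset.mem_range.1 hi
    rw [if_neg (by omega), if_pos (by omega)]

/-- **FOF** -/
theorem fof : FofStmt := by
  intro τ r hr hτ f
  refine ⟨RR0 f τ r, fun i hi => tail_fac (mem_tw hr hτ hi), ?_, ?_, ?_, ?_⟩
  · intro a s
    rw [wf_map, gh_succ, gh_succ]
    have e : gh (fun i => f (NF.L (i + 1))) (fun i => if i < r then dp f a s i else
        if i = r then f 0 ++ f 0 else []) r =
        gh (fun i => f (NF.L (i + 1))) (fun i => dp f a s i) r :=
      gh_congr (fun _ _ => rfl) (fun i hi => if_pos hi)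
    rw [e, if_neg (lt_irrefl r), if_pos rfl, if_neg (by omega : ¬ r + 1 < r),
      if_neg (by omega : ¬ r + 1 = r)]
    simp only [List.append_assoc, List.nil_append]
  · intro a s
    rw [wf_map, gh_succ, gh_first]
    have e : gh (fun i => f (NF.L (i + 1))) (fun i => if i + 1 = 0 then f 1 ++ f 1 else
        if i + 1 ≤ r then dp f a s (i + 1 - 1) else []) r =
        gh (fun i => f (NF.L (i + 1))) (fun i => dp f a s i) r := by
      refine gh_congr (fun _ _ => rfl) (fun i hi => ?_)
      rw [if_neg (by omega), if_pos (by omega), Nat.add_sub_cancel]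
    rw [e, if_pos rfl, if_neg (by omega : ¬ r + 1 = 0), if_neg (by omega : ¬ r + 1 ≤ r)]
    simp only [List.append_assoc, List.nil_append]
  · intro s
    have h := ins_gh (E := f 1 ++ f 1) (fun i => f (NF.L (i + 1)))
      (fun i => if i < r then dp f false s i else if i = r then f 0 ++ f 0 else [])
      (fun i => if i < r then dp f true s i else if i = r then f 0 ++ f 0 else [])
      (fun i => if i < r then 1 else 0) (r + 2) ?_
    · rw [sum1] at h
      exact h
    · intro i _
      show Ins (f 1 ++ f 1) (if i < r then dp f false s i else if i = r then f 0 ++ f 0 else [])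
        (if i < r then dp f true s i else if i = r then f 0 ++ f 0 else []) (if i < r then 1 else 0)
      by_cases hi : i < r
      · rw [if_pos hi, if_pos hi, if_pos hi]
        unfold dp
        refine ins_left _ (ins_left _ ?_)
        exact ins_one _ _
      · rw [if_neg hi, if_neg hi, if_neg hi]
        exact ins_refl _ _
  · intro a
    have h := ins_gh (E := f 0 ++ f 0) (fun i => f (NF.L i))
      (fun i => if i = 0 then f 1 ++ f 1 else if i ≤ r then dp f a false (i - 1) else [])
      (fun i => if i = 0 then f 1 ++ f 1 else if i ≤ r then dp f a true (i - 1) else [])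
      (fun i => if i = 0 then 0 else if i ≤ r then 1 else 0) (r + 2) ?_
    · rw [sum2] at h
      exact h
    · intro i _
      show Ins (f 0 ++ f 0)
        (if i = 0 then f 1 ++ f 1 else if i ≤ r then dp f a false (i - 1) else [])
        (if i = 0 then f 1 ++ f 1 else if i ≤ r then dp f a true (i - 1) else [])
        (if i = 0 then 0 else if i ≤ r then 1 else 0)
      by_cases h0 : i = 0
      · rw [if_pos h0, if_pos h0, if_pos h0]
        exact ins_refl _ _
      · rw [if_neg h0, if_neg h0, if_neg h0]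
        by_cases hi : i ≤ r
        · rw [if_pos hi, if_pos hi, if_pos hi]
          unfold dp
          refine ins_left _ (ins_left _ (ins_left _ ?_))
          exact ins_nil _
        · rw [if_neg hi, if_neg hi, if_neg hi]
          exact ins_refl _ _

end Pool.Agent.MWGN.H43
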